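import Pool.Agent.helper81.CW.Spec2

/-! # Project cw, module TUP: upper bound for the outer measure of symmetry -/

open MeasureTheory Set
open scoped ENNReal Pointwise

namespace Pool.Agent.helper81.CW

theorem TUP (hJ2 : J2_stmt) : TUP_stmt := by
  intro n C w hC
  have hball := (hJ2 n C w hC).2.2
  unfold outerSym
  refine ENNReal.div_le_div_left ?_ _
  refine le_iInf fun B => ?_
  obtain ⟨B, hCB, hconv, c, hc⟩ := B
  have h1 : Metric.closedBall c (w / 2) ⊆ B := by
    intro x' hx'
    have h2 : ‖x' - c‖ ≤ w / 2 := by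
      rwa [← dist_eq_norm]
    have h3 : ‖(2 : ℝ) • (x' - c)‖ ≤ w := by
      rw [norm_smul, Real.norm_eq_abs, abs_of_pos (by norm_num : (0 : ℝ) < 2)]
      linarith
    obtain ⟨x, hx, y, hy, hxy⟩ := hball _ h3
    have h4 : (2 : ℝ) • c - y ∈ B := (hc y).1 (hCB hy)
    have h5 := hconv (hCB hx) h4 (by norm_num : (0 : ℝ) ≤ 1 / 2) (by norm_num : (0 : ℝ) ≤ 1 / 2)
      (by norm_num)
    have h6 : x' = (1 / 2 : ℝ) • x + (1 / 2 : ℝ) • ((2 : ℝ) • c - y) := by
      have h7 : (1 / 2 : ℝ) • x + (1 / 2 : ℝ) • ((2 : ℝ) • c - y)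
          = (1 / 2 : ℝ) • (x - y) + c := by
        module
      rw [h7, hxy]
      module
    rw [h6]
    exact h5
  calc volume (Metric.closedBall (0 : E n) (w / 2))
      = volume (Metric.closedBall c (w / 2)) := (Measure.addHaar_closedBall_center _ c _).symm
    _ ≤ volume B := measure_mono h1

end Pool.Agent.helper81.CW
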